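import Mathlib
import Pool.Agent.H21.Gr1

namespace Pool.Agent.Results.MP_5a34df_al.No

universe u v

open Pool.Agent.H21.Gr in
theorem result (K : Type u) [Field K] :
    ∃ (n : ℕ) (Γ : Type) (_ : DecidableEq Γ) (A : Γ → Submodule K (Matrix (Fin n) (Fin n) K))
      (op : Γ → Γ → Γ), 1 ≤ n ∧ DirectSum.IsInternal A ∧ (∀ g, A g ≠ ⊥) ∧
      (∀ g h, A g * A h ≠ ⊥ → A g * A h ≤ A (op g h)) ∧
      ∀ (S : Type v) [Semigroup S] (ι : Γ → S), Function.Injective ι →
        ¬∀ g h, A g * A h ≠ ⊥ → ι (op g h) = ι g * ι h := by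
  refine ⟨8, G, inferInstance, A K, op, by omega, internal K, fun g hg => ?_,
    fun g h _ => mul_le K g h, fun S _ ι hι H => ?_⟩
  · obtain ⟨i, j, rfl⟩ := L_surj g
    have := single_mem K i j 1
    rw [hg, Submodule.mem_bot] at this
    exact single_ne K i j this
  · have h : ∀ i j k, ι (L i k) = ι (L i j) * ι (L j k) := fun i j k => by
      rw [← H _ _ (mul_ne K i j k), op_L]
    have e1 : L 3 4 = L 0 2 := by decide
    have e2 : L 6 4 = L 1 2 := by decide
    have e3 : L 6 5 = L 1 7 := by decide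
    have e4 : L 3 5 ≠ L 0 7 := by decide
    refine e4 (hι ?_)
    rw [h 3 4 5, e1, h 0 1 2, h 0 1 7, ← e3, h 6 4 5, e2, mul_assoc]

end Pool.Agent.Results.MP_5a34df_al.No
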